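import Pool.Agent.H139R2.GP.Resamp
import Pool.Agent.H460R2.Defs

set_option autoImplicit false

open scoped Pointwise

namespace H139R2.GP
open Finset

lemma boxSet_finite {n : ℕ} (L : AddSubgroup (Fin n → ℤ)) : (H460.boxSet L).Finite := by
  apply Set.Finite.subset (Fintype.piFinset (fun _ : Fin n => Finset.Icc (-(2 ^ (n^2)) : ℤ) (2 ^ (n^2)))).finite_toSet
  intro x hx
  rw [Finset.mem_coe, Fintype.mem_piFinset]
  intro i
  rw [Finset.mem_Icc]
  exact abs_le.1 (hx.2 i)

/-- the set `A` inside the group `L` -/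
def AA {n : ℕ} (L : AddSubgroup (Fin n → ℤ)) : Set L := {x | ∀ i, |(x : Fin n → ℤ) i| ≤ 2 ^ (n^2)}

lemma AA_image {n : ℕ} (L : AddSubgroup (Fin n → ℤ)) :
    (Subtype.val : L → (Fin n → ℤ)) '' (AA L) = H460.boxSet L := by
  ext x
  constructor
  · rintro ⟨y, hy, rfl⟩
    exact ⟨y.2, hy⟩
  · rintro ⟨h1, h2⟩
    exact ⟨⟨x, h1⟩, h2, rfl⟩

lemma AA_ncard {n : ℕ} (L : AddSubgroup (Fin n → ℤ)) : (AA L).ncard = (H460.boxSet L).ncard := by
  rw [← AA_image, Set.ncard_image_of_injective _ Subtype.val_injective]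

lemma AA_finite {n : ℕ} (L : AddSubgroup (Fin n → ℤ)) : (AA L).Finite := by
  apply Set.Finite.of_finite_image (f := Subtype.val) _ Subtype.val_injective.injOn
  rw [AA_image]; exact boxSet_finite L

lemma AA_nonempty {n : ℕ} (L : AddSubgroup (Fin n → ℤ)) : (AA L).Nonempty :=
  ⟨0, fun i => by simp⟩

/-- doubling at most `5^n` -/
lemma doubling {n : ℕ} (L : AddSubgroup (Fin n → ℤ)) :
    (AA L + AA L).ncard ≤ 5 ^ n * (AA L).ncard := by
  classical
  set T : ℤ := 2 ^ (n^2) with hT
  have hTpos : 0 < T := by positivity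
  have hfin : (AA L + AA L).Finite := (AA_finite L).add (AA_finite L)
  set F : Finset L := hfin.toFinset with hF
  rw [Set.ncard_eq_toFinset_card _ hfin, ← hF]
  set cl : L → (Fin n → ℤ) := fun x i => ((x : Fin n → ℤ) i + 2 * T) / T with hcl
  have hrange : ∀ x ∈ F, cl x ∈ Fintype.piFinset (fun _ : Fin n => Finset.Icc (0:ℤ) 4) := by
    intro x hx
    rw [hF, Set.Finite.mem_toFinset] at hx
    obtain ⟨y, hy, z, hz, rfl⟩ := hx
    rw [Fintype.mem_piFinset]
    intro i
    have h1 := abs_le.1 (hy i)
    have h2 := abs_le.1 (hz i)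
    rw [← hT] at h1 h2
    rw [Finset.mem_Icc]
    simp only [hcl]
    have e : (((y + z : L) : Fin n → ℤ)) i = (y : Fin n → ℤ) i + (z : Fin n → ℤ) i := rfl
    rw [e]
    constructor
    · apply Int.ediv_nonneg _ hTpos.le; linarith [h1.1, h2.1]
    · apply Int.le_of_lt_add_one
      apply Int.ediv_lt_of_lt_mul hTpos; linarith [h1.2, h2.2]
  calc F.card ≤ (AA L).ncard * (Fintype.piFinset (fun _ : Fin n => Finset.Icc (0:ℤ) 4)).card := by
        apply Finset.card_le_mul_card_image_of_maps_to hrange
        intro b _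
        rcases (F.filter fun x => cl x = b).eq_empty_or_nonempty with h | ⟨x0, hx0⟩
        · rw [h]; simp
        · rw [← Set.ncard_coe_finset]
          apply Set.ncard_le_ncard_of_injOn (fun x => x - x0) _ _ (AA_finite L)
          · intro x hx i
            have h1 := (Finset.mem_filter.1 (Finset.mem_coe.1 hx)).2
            have h2 := (Finset.mem_filter.1 hx0).2
            have h3 : cl x i = cl x0 i := by rw [h1, h2]
            simp only [hcl] at h3
            rw [← hT]
            have e : (((x - x0 : L) : Fin n → ℤ)) i = (x : Fin n → ℤ) i - (x0 : Fin n → ℤ) i := rfl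
            rw [e, abs_le]
            have d1 := Int.emod_add_mul_ediv ((x : Fin n → ℤ) i + 2 * T) T
            have d2 := Int.emod_add_mul_ediv ((x0 : Fin n → ℤ) i + 2 * T) T
            have m1 := Int.emod_nonneg ((x : Fin n → ℤ) i + 2 * T) hTpos.ne'
            have m2 := Int.emod_lt_of_pos ((x : Fin n → ℤ) i + 2 * T) hTpos
            have m3 := Int.emod_nonneg ((x0 : Fin n → ℤ) i + 2 * T) hTpos.ne'
            have m4 := Int.emod_lt_of_pos ((x0 : Fin n → ℤ) i + 2 * T) hTpos
            rw [h3] at d1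
            constructor <;> linarith
          · intro x _ x' _ h
            exact sub_left_injective h
    _ = 5 ^ n * (AA L).ncard := by
        rw [Fintype.card_piFinset]; simp [mul_comm]

/-- index type of the unit generators of a progression -/
abbrev Idx {d : ℕ} (N : Fin d → ℕ) := Σ i : Fin d, Fin (N i - 1)

/-- a progression is the set of subset sums of its unit generators -/
lemma prog_eq {M : Type*} [AddCommGroup M] {d : ℕ} (a : M) (v : Fin d → M) (N : Fin d → ℕ) (hN : ∀ i, 0 < N i) (x : M) :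
    (∃ k : Fin d → ℕ, (∀ i, k i < N i) ∧ x = a + ∑ i, k i • v i) ↔
    ∃ S : Finset (Idx N), x = a + ∑ p ∈ S, v p.1 := by
  classical
  constructor
  · rintro ⟨k, hk, rfl⟩
    refine ⟨Finset.univ.filter (fun p : Idx N => (p.2 : ℕ) < k p.1), ?_⟩
    congr 1
    rw [Finset.sum_filter, Fintype.sum_sigma]
    apply Finset.sum_congr rfl
    intro i _
    dsimp only
    rw [← Finset.sum_filter, Finset.sum_const]
    congr 1
    have h1 : (Finset.univ.filter (fun b : Fin (N i - 1) => (b : ℕ) < k i)).card = (Finset.range (k i)).card := by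
      rw [← Finset.card_map Fin.valEmbedding]
      congr 1
      ext m
      simp only [Finset.mem_map, Finset.mem_filter, Finset.mem_univ, true_and, Fin.valEmbedding_apply, Finset.mem_range]
      constructor
      · rintro ⟨b, hb, rfl⟩; exact hb
      · intro hm
        have := hk i
        exact ⟨⟨m, by omega⟩, hm, rfl⟩
    rw [h1, Finset.card_range]
  · rintro ⟨S, rfl⟩
    refine ⟨fun i => (Finset.univ.filter (fun b : Fin (N i - 1) => (⟨i, b⟩ : Idx N) ∈ S)).card, ?_, ?_⟩
    · intro i
      have h1 : (Finset.univ.filter (fun b : Fin (N i - 1) => (⟨i, b⟩ : Idx N) ∈ S)).card ≤ N i - 1 := by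
        refine (Finset.card_filter_le _ _).trans ?_
        simp
      have := hN i
      dsimp only
      omega
    · congr 1
      have h1 : ∑ p ∈ S, v p.1 = ∑ p : Idx N, if p ∈ S then v p.1 else 0 := by
        rw [← Finset.sum_filter]; simp
      rw [h1, Fintype.sum_sigma]
      apply Finset.sum_congr rfl
      intro i _
      dsimp only
      rw [← Finset.sum_filter, Finset.sum_const]

/-- if all `d`-subsets of `R` are dependent, the span has rank `< d` or so -/
lemma finrank_le {ι E : Type*} [Fintype ι] [DecidableEq ι] [AddCommGroup E] [Module ℝ E] [FiniteDimensional ℝ E]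
    (g : ι → E) (d : ℕ) (J : Finset ι)
    (h : ∀ S : Finset ι, Disjoint S J → S.card = d → ¬ LinearIndepOn ℝ g (S : Set ι)) :
    Module.finrank ℝ (Submodule.span ℝ (g '' ((Jᶜ : Finset ι) : Set ι))) ≤ d := by
  classical
  by_contra hcon
  push Not at hcon
  obtain ⟨b, hbs, _, hb1, hb2⟩ := exists_linearIndepOn_extension (K := ℝ) (v := g) (s := ∅)
    (t := ((Jᶜ : Finset ι) : Set ι)) (linearIndepOn_empty ℝ g) (Set.empty_subset _)
  set b' : Finset ι := b.toFinset with hb'
  have hbb : (b' : Set ι) = b := by simp [hb']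
  have hle : Submodule.span ℝ (g '' ((Jᶜ : Finset ι) : Set ι)) ≤ Submodule.span ℝ (g '' b) :=
    Submodule.span_le.2 hb1
  have h1 : Module.finrank ℝ (Submodule.span ℝ (g '' b)) ≤ b'.card := by
    rw [← hbb, ← Finset.coe_image]
    exact (finrank_span_finset_le_card _).trans Finset.card_image_le
  have h2 : d ≤ b'.card := (hcon.le.trans (Submodule.finrank_mono hle)).trans h1
  obtain ⟨S, hS1, hS2⟩ := Finset.exists_subset_card_eq h2
  apply h S _ hS2
  · apply hb2.mono
    rw [← hbb]; exact_mod_cast hS1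
  · rw [Finset.disjoint_left]
    intro x hx hxJ
    have h3 : x ∈ b := by rw [← hbb]; exact hS1 hx
    have h4 := hbs h3
    simp at h4
    exact h4 hxJ

end H139R2.GP
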