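import Pool.Agent.H139R2.GP.Resamp

set_option autoImplicit false
set_option linter.unusedSectionVars false

namespace H139R2.GP
open Finset

section
variable {ι E : Type*} [DecidableEq ι] [AddCommGroup E] [Module ℝ E]

/-- projection along `v` -/
noncomputable def prj (f : E →ₗ[ℝ] ℝ) (v : E) : E →ₗ[ℝ] E := LinearMap.id - f.smulRight v

lemma prj_apply (f : E →ₗ[ℝ] ℝ) (v x : E) : prj f v x = x - f x • v := by simp [prj]

lemma prj_self (f : E →ₗ[ℝ] ℝ) (v : E) (hf : f v = 1) : prj f v v = 0 := by simp [prj_apply, hf]

lemma exists_functional {v : E} (hv : v ≠ 0) : ∃ f : E →ₗ[ℝ] ℝ, f v = 1 := by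
  have h : ¬ ∀ φ : Module.Dual ℝ E, φ v = 0 := fun h =>
    hv ((Module.forall_dual_apply_eq_zero_iff ℝ v).1 h)
  push Not at h
  obtain ⟨φ, hφ⟩ := h
  exact ⟨(φ v)⁻¹ • φ, by simp [hφ]⟩

lemma indep_down (g : ι → E) (f : E →ₗ[ℝ] ℝ) (e : ι) (S : Finset ι) (he : e ∉ S)
    (h : LinearIndepOn ℝ g ((insert e S : Finset ι) : Set ι)) :
    LinearIndepOn ℝ (fun i => prj f (g e) (g i)) (S : Set ι) := by
  rw [linearIndepOn_finset_iff] at h ⊢
  intro c hc i hi
  have h1 : ∑ i ∈ S, c i • prj f (g e) (g i) = ∑ i ∈ S, c i • g i - (∑ i ∈ S, c i * f (g i)) • g e := by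
    rw [Finset.sum_smul, ← Finset.sum_sub_distrib]
    apply Finset.sum_congr rfl
    intro i _
    rw [prj_apply, smul_sub, smul_smul]
  rw [h1] at hc
  set c' : ι → ℝ := fun j => if j = e then -(∑ i ∈ S, c i * f (g i)) else c j with hc'
  have h2 : ∑ j ∈ insert e S, c' j • g j = 0 := by
    rw [Finset.sum_insert he]
    have h3 : ∑ j ∈ S, c' j • g j = ∑ j ∈ S, c j • g j := by
      apply Finset.sum_congr rfl
      intro j hj
      have : j ≠ e := fun h => he (h ▸ hj)
      simp [hc', this]
    rw [h3]
    simp only [hc', if_true]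
    rw [neg_smul, neg_add_eq_sub]; exact hc
  have h4 := h c' h2 i (Finset.mem_insert_of_mem hi)
  have : i ≠ e := fun h => he (h ▸ hi)
  simpa [hc', this] using h4

lemma indep_up (g : ι → E) (f : E →ₗ[ℝ] ℝ) (e : ι) (hf : f (g e) = 1) (S : Finset ι) (he : e ∉ S)
    (h : LinearIndepOn ℝ (fun i => prj f (g e) (g i)) (S : Set ι)) :
    LinearIndepOn ℝ g ((insert e S : Finset ι) : Set ι) := by
  rw [linearIndepOn_finset_iff] at h ⊢
  intro c hc i hi
  have hge : g e ≠ 0 := by intro h0; rw [h0] at hf; simp at hf
  rw [Finset.sum_insert he] at hc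
  have h1 : ∑ i ∈ S, c i • prj f (g e) (g i) = 0 := by
    have := congrArg (prj f (g e)) hc
    rw [map_add, map_smul, prj_self f _ hf, smul_zero, zero_add, map_sum, map_zero] at this
    rw [← this]
    exact Finset.sum_congr rfl fun i _ => (map_smul _ _ _).symm
  have h2 := h c h1
  have h3 : ∑ i ∈ S, c i • g i = 0 := Finset.sum_eq_zero fun i hi => by rw [h2 i hi, zero_smul]
  rw [h3, add_zero] at hc
  have h4 : c e = 0 := (smul_eq_zero.1 hc).resolve_right hge
  rcases Finset.mem_insert.1 hi with rfl | hi
  · exact h4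
  · exact h2 i hi

/-- adding one vector: at least one new point in every fibre -/
lemma card_union_ge [DecidableEq E] (f : E →ₗ[ℝ] ℝ) (v : E) (hf : f v = 1) (Y : Finset E) :
    Y.card + (Y.image (prj f v)).card ≤ (Y ∪ Y.image (fun y => y + v)).card := by
  have h1 : ∀ p : E, ∃ y : E, p ∈ Y.image (prj f v) → y ∈ Y ∧ prj f v y = p ∧ y + v ∉ Y := by
    intro p
    by_cases hp : p ∈ Y.image (prj f v)
    · obtain ⟨y0, hy0, hy0'⟩ := Finset.mem_image.1 hp
      obtain ⟨y, hy, hmax⟩ := (Y.filter fun y => prj f v y = p).exists_max_image f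
        ⟨y0, Finset.mem_filter.2 ⟨hy0, hy0'⟩⟩
      obtain ⟨hy1, hy2⟩ := Finset.mem_filter.1 hy
      refine ⟨y, fun _ => ⟨hy1, hy2, fun hcon => ?_⟩⟩
      have h2 : prj f v (y + v) = p := by rw [map_add, prj_self f v hf, add_zero, hy2]
      have h3 := hmax (y + v) (Finset.mem_filter.2 ⟨hcon, h2⟩)
      rw [map_add, hf] at h3
      linarith
    · exact ⟨0, fun h => absurd h hp⟩
  choose y hy using h1
  have h2 : ((Y.image (prj f v)).image (fun p => y p + v)).card = (Y.image (prj f v)).card := by
    apply Finset.card_image_of_injOn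
    intro p hp p' hp' h
    have e1 := (hy p (Finset.mem_coe.1 hp)).2.1
    have e2 := (hy p' (Finset.mem_coe.1 hp')).2.1
    have e3 : y p = y p' := add_right_cancel h
    rw [← e1, ← e2, e3]
  have h3 : Disjoint Y ((Y.image (prj f v)).image (fun p => y p + v)) := by
    rw [Finset.disjoint_right]
    intro x hx
    obtain ⟨p, hp, rfl⟩ := Finset.mem_image.1 hx
    exact (hy p hp).2.2
  rw [← h2, ← Finset.card_union_of_disjoint h3]
  apply Finset.card_le_card
  apply Finset.union_subset_union_right
  intro x hx
  obtain ⟨p, hp, rfl⟩ := Finset.mem_image.1 hx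
  exact Finset.mem_image.2 ⟨y p, (hy p hp).1, rfl⟩

lemma sums_insert [DecidableEq E] (g : ι → E) (e : ι) (J : Finset ι) (he : e ∉ J) :
    sums g J ∪ (sums g J).image (fun y => y + g e) ⊆ sums g (insert e J) := by
  intro x hx
  rw [mem_sums]
  rcases Finset.mem_union.1 hx with h | h
  · obtain ⟨S, hS, rfl⟩ := (mem_sums _ _ _).1 h
    exact ⟨S, hS.trans (Finset.subset_insert _ _), rfl⟩
  · obtain ⟨y, hy, rfl⟩ := Finset.mem_image.1 h
    obtain ⟨S, hS, rfl⟩ := (mem_sums _ _ _).1 hy
    refine ⟨insert e S, Finset.insert_subset_insert _ hS, ?_⟩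
    rw [Finset.sum_insert (fun h => he (hS h)), add_comm]

lemma sums_image [DecidableEq E] (g : ι → E) (π : E →ₗ[ℝ] E) (J : Finset ι) :
    (sums g J).image π = sums (fun i => π (g i)) J := by
  ext x
  rw [Finset.mem_image, mem_sums]
  constructor
  · rintro ⟨y, hy, rfl⟩
    obtain ⟨S, hS, rfl⟩ := (mem_sums _ _ _).1 hy
    exact ⟨S, hS, (map_sum _ _ _).symm⟩
  · rintro ⟨S, hS, rfl⟩
    exact ⟨∑ i ∈ S, g i, (mem_sums _ _ _).2 ⟨S, hS, rfl⟩, map_sum _ _ _⟩

open Classical in
/-- number of subset sums is at least the number of independent subfamilies -/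
lemma ind_le_sums (J : Finset ι) : ∀ g : ι → E,
    (J.powerset.filter fun S : Finset ι => LinearIndepOn ℝ g (S : Set ι)).card ≤ (sums g J).card := by
  induction J using Finset.induction_on with
  | empty =>
    intro g
    have h1 : (sums g ∅).card = 1 := by
      unfold sums; simp
    rw [h1]
    refine (Finset.card_filter_le _ _).trans ?_
    simp
  | insert e J he ih =>
    intro g
    by_cases hge : g e = 0
    · have h1 : ((insert e J).powerset.filter fun S : Finset ι => LinearIndepOn ℝ g (S : Set ι))
          ⊆ (J.powerset.filter fun S : Finset ι => LinearIndepOn ℝ g (S : Set ι)) := by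
        intro S hS
        obtain ⟨hS1, hS2⟩ := Finset.mem_filter.1 hS
        rw [Finset.mem_filter, Finset.mem_powerset]
        refine ⟨?_, hS2⟩
        have heS : e ∉ S := by
          intro h
          have := hS2.ne_zero (i := e) (by exact_mod_cast h)
          exact this hge
        exact (Finset.subset_insert_iff_of_notMem heS).1 (Finset.mem_powerset.1 hS1)
      refine (Finset.card_le_card h1).trans ((ih g).trans ?_)
      apply Finset.card_le_card
      intro x hx
      exact sums_insert g e J he (Finset.mem_union_left _ hx)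
    · obtain ⟨f, hf⟩ := exists_functional hge
      have h1 : ((insert e J).powerset.filter fun S : Finset ι => LinearIndepOn ℝ g (S : Set ι))
          ⊆ (J.powerset.filter fun S : Finset ι => LinearIndepOn ℝ g (S : Set ι)) ∪
            (J.powerset.filter fun S : Finset ι => LinearIndepOn ℝ (fun i => prj f (g e) (g i)) (S : Set ι)).image
              (fun S : Finset ι => insert e S) := by
        intro S hS
        obtain ⟨hS1, hS2⟩ := Finset.mem_filter.1 hS
        rw [Finset.mem_powerset] at hS1
        by_cases heS : e ∈ S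
        · apply Finset.mem_union_right
          rw [Finset.mem_image]
          refine ⟨S.erase e, ?_, Finset.insert_erase heS⟩
          rw [Finset.mem_filter, Finset.mem_powerset]
          refine ⟨Finset.subset_insert_iff.1 hS1, ?_⟩
          apply indep_down g f e (S.erase e) (Finset.notMem_erase _ _)
          rw [Finset.insert_erase heS]; exact hS2
        · apply Finset.mem_union_left
          rw [Finset.mem_filter, Finset.mem_powerset]
          exact ⟨(Finset.subset_insert_iff_of_notMem heS).1 hS1, hS2⟩
      have h2 := (Finset.card_le_card h1).trans (Finset.card_union_le _ _)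
      have h3 := ih g
      have h4 := ih (fun i => prj f (g e) (g i))
      have h5 := card_union_ge f (g e) hf (sums g J)
      rw [sums_image] at h5
      have h6 := Finset.card_le_card (sums_insert g e J he)
      have h7 : ((J.powerset.filter fun S : Finset ι => LinearIndepOn ℝ (fun i => prj f (g e) (g i)) (S : Set ι)).image
              (fun S : Finset ι => insert e S)).card ≤ (J.powerset.filter fun S : Finset ι => LinearIndepOn ℝ (fun i => prj f (g e) (g i)) (S : Set ι)).card :=
        Finset.card_image_le
      omega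

/-- in the contraction by `e`, a block of size `d+1` still contains an independent set of size `d` -/
lemma block_contract (g : ι → E) (f : E →ₗ[ℝ] ℝ) (e : ι) (_hf : f (g e) = 1) (d : ℕ) (B : Finset ι)
    (hcard : B.card = d + 1) (hli : LinearIndepOn ℝ g (B : Set ι)) :
    ∃ B' ⊆ B, e ∉ B' ∧ B'.card = d ∧ LinearIndepOn ℝ (fun i => prj f (g e) (g i)) (B' : Set ι) := by
  classical
  by_cases heB : e ∈ B
  · refine ⟨B.erase e, Finset.erase_subset _ _, Finset.notMem_erase _ _, ?_, ?_⟩
    · rw [Finset.card_erase_of_mem heB, hcard]; rfl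
    · apply indep_down g f e _ (Finset.notMem_erase _ _)
      rw [Finset.insert_erase heB]; exact hli
  · set g' : ι → E := fun i => prj f (g e) (g i) with hg'
    obtain ⟨b, hbs, _, hb1, hb2⟩ := exists_linearIndepOn_extension (K := ℝ) (v := g') (s := ∅)
      (t := (B : Set ι)) (linearIndepOn_empty ℝ g') (Set.empty_subset _)
    have hbfin : b.Finite := B.finite_toSet.subset hbs
    set b' : Finset ι := hbfin.toFinset with hb'
    have hbb : (b' : Set ι) = b := by simp [hb']
    -- dimension count
    have h1 : Module.finrank ℝ (Submodule.span ℝ (g '' (B : Set ι))) = d + 1 := by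
      have h2 : LinearIndependent ℝ (fun i : (B : Set ι) => g i) := hli
      have h3 := finrank_span_eq_card h2
      have h4 : Set.range (fun i : (B : Set ι) => g i) = g '' (B : Set ι) := by
        ext x; simp
      rw [h4] at h3
      rw [h3]
      simp [hcard]
    set V := Submodule.span ℝ (g '' (B : Set ι)) with hV
    have : FiniteDimensional ℝ V := FiniteDimensional.span_of_finite ℝ (B.finite_toSet.image g)
    have h2 : Module.finrank ℝ (LinearMap.range ((prj f (g e)).domRestrict V)) +
        Module.finrank ℝ (LinearMap.ker ((prj f (g e)).domRestrict V)) = d + 1 := by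
      rw [LinearMap.finrank_range_add_finrank_ker, h1]
    have h3 : Module.finrank ℝ (LinearMap.ker ((prj f (g e)).domRestrict V)) ≤ 1 := by
      have hinj : Function.Injective
          ((f.comp V.subtype).comp (LinearMap.ker ((prj f (g e)).domRestrict V)).subtype) := by
        intro x y hxy
        have hx := x.2
        have hy := y.2
        rw [LinearMap.mem_ker, LinearMap.domRestrict_apply, prj_apply, sub_eq_zero] at hx hy
        apply Subtype.ext
        apply Subtype.ext
        have hxy' : f ((x : V) : E) = f ((y : V) : E) := hxy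
        rw [hx, hy, hxy']
      have := LinearMap.finrank_le_finrank_of_injective hinj
      simpa using this
    have h4 : Module.finrank ℝ (LinearMap.range ((prj f (g e)).domRestrict V)) ≤ b'.card := by
      have hr : LinearMap.range ((prj f (g e)).domRestrict V) ≤ Submodule.span ℝ (g' '' b) := by
        rw [LinearMap.range_domRestrict, hV, Submodule.map_span]
        apply Submodule.span_le.2
        rintro _ ⟨_, ⟨i, hi, rfl⟩, rfl⟩
        exact hb1 ⟨i, hi, rfl⟩
      have : FiniteDimensional ℝ (Submodule.span ℝ (g' '' b)) :=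
        FiniteDimensional.span_of_finite ℝ (hbfin.image g')
      refine (Submodule.finrank_mono hr).trans ?_
      rw [← hbb, ← Finset.coe_image]
      exact (finrank_span_finset_le_card _).trans Finset.card_image_le
    obtain ⟨S, hS1, hS2⟩ := Finset.exists_subset_card_eq (show d ≤ b'.card by omega)
    refine ⟨S, ?_, ?_, hS2, ?_⟩
    · intro x hx
      have : x ∈ b := by rw [← hbb]; exact hS1 hx
      exact_mod_cast hbs this
    · intro h
      have : e ∈ b := by rw [← hbb]; exact hS1 h
      exact heB (by exact_mod_cast hbs this)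
    · apply hb2.mono
      rw [← hbb]; exact_mod_cast hS1

open Classical in
/-- number of independent `d`-subfamilies of `κ` disjoint independent `d`-sets -/
lemma many_indep (κ d : ℕ) : ∀ (g : ι → E) (B : Fin κ → Finset ι)
    (_ : ∀ k l, k ≠ l → Disjoint (B k) (B l)) (_ : ∀ l, (B l).card = d)
    (_ : ∀ l, LinearIndepOn ℝ g (B l : Set ι)),
    κ ^ d ≤ ((Finset.univ.biUnion B).powerset.filter
      fun S : Finset ι => S.card = d ∧ LinearIndepOn ℝ g (S : Set ι)).card := by
  induction d with
  | zero =>
    intro g B _ _ _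
    rw [pow_zero, Nat.one_le_iff_ne_zero, Finset.card_ne_zero]
    refine ⟨∅, ?_⟩
    simp
  | succ d ih =>
    intro g B hdisj hcard hli
    set J := Finset.univ.biUnion B with hJ
    set T := J.powerset.filter (fun S : Finset ι => S.card = d + 1 ∧ LinearIndepOn ℝ g (S : Set ι)) with hT
    have hJcard : J.card = κ * (d + 1) := by
      rw [hJ, Finset.card_biUnion (fun k _ l _ h => hdisj k l h)]
      simp [hcard]
    have hper : ∀ e ∈ J, κ ^ d ≤ (T.filter fun S : Finset ι => e ∈ S).card := by
      intro e he
      obtain ⟨l, _, hel⟩ := Finset.mem_biUnion.1 he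
      have hge : g e ≠ 0 := (hli l).ne_zero (by exact_mod_cast hel)
      obtain ⟨f, hf⟩ := exists_functional hge
      choose B' hB1 hB2 hB3 hB4 using fun l => block_contract g f e hf d (B l) (hcard l) (hli l)
      have h1 := ih (fun i => prj f (g e) (g i)) B'
        (fun k l h => Finset.disjoint_of_subset_left (hB1 k) (Finset.disjoint_of_subset_right (hB1 l) (hdisj k l h)))
        hB3 hB4
      refine h1.trans ?_
      have heB : e ∉ Finset.univ.biUnion B' := by
        intro h
        obtain ⟨k, _, hk⟩ := Finset.mem_biUnion.1 h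
        exact hB2 k hk
      apply Finset.card_le_card_of_injOn (fun S : Finset ι => insert e S)
      · intro S hS
        obtain ⟨hS1, hS2, hS3⟩ := Finset.mem_filter.1 (Finset.mem_coe.1 hS)
        rw [Finset.mem_powerset] at hS1
        have heS : e ∉ S := fun h => heB (hS1 h)
        rw [Finset.mem_coe, Finset.mem_filter, hT, Finset.mem_filter, Finset.mem_powerset]
        refine ⟨⟨?_, ?_, ?_⟩, Finset.mem_insert_self _ _⟩
        · apply Finset.insert_subset he
          intro x hx
          obtain ⟨k, _, hk⟩ := Finset.mem_biUnion.1 (hS1 hx)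
          exact Finset.mem_biUnion.2 ⟨k, Finset.mem_univ _, hB1 k hk⟩
        · rw [Finset.card_insert_of_notMem heS, hS2]
        · exact indep_up g f e hf S heS hS3
      · intro S hS S' hS' h
        obtain ⟨hS1, _⟩ := Finset.mem_filter.1 (Finset.mem_coe.1 hS)
        obtain ⟨hS1', _⟩ := Finset.mem_filter.1 (Finset.mem_coe.1 hS')
        rw [Finset.mem_powerset] at hS1 hS1'
        have heS : e ∉ S := fun h => heB (hS1 h)
        have heS' : e ∉ S' := fun h => heB (hS1' h)
        have h2 : (insert e S).erase e = (insert e S').erase e := by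
          have : (fun S : Finset ι => insert e S) S = (fun S : Finset ι => insert e S) S' := h
          simp only at this
          rw [this]
        rwa [Finset.erase_insert heS, Finset.erase_insert heS'] at h2
    have hdc : ∑ e ∈ J, (T.filter fun S : Finset ι => e ∈ S).card = T.card * (d + 1) := by
      have h1 : ∑ e ∈ J, (T.filter fun S : Finset ι => e ∈ S).card = ∑ S ∈ T, (J.filter fun e => e ∈ S).card :=
        Finset.sum_card_bipartiteAbove_eq_sum_card_bipartiteBelow (fun e S => e ∈ S)
      rw [h1, ← smul_eq_mul, ← Finset.sum_const]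
      apply Finset.sum_congr rfl
      intro S hS
      obtain ⟨hS1, hS2, _⟩ := Finset.mem_filter.1 hS
      rw [Finset.mem_powerset] at hS1
      rw [← hS2]
      congr 1
      ext x
      rw [Finset.mem_filter]
      exact ⟨fun h => h.2, fun h => ⟨hS1 h, h⟩⟩
    have h2 : κ * (d + 1) * κ ^ d ≤ T.card * (d + 1) := by
      rw [← hdc, ← hJcard, ← smul_eq_mul, ← Finset.sum_const]
      exact Finset.sum_le_sum hper
    have h3 : κ ^ (d+1) * (d + 1) ≤ T.card * (d + 1) := by
      calc κ ^ (d+1) * (d+1) = κ * (d + 1) * κ ^ d := by ring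
        _ ≤ _ := h2
    exact Nat.le_of_mul_le_mul_right h3 (by omega)

theorem blocks_sums (g : ι → E) (κ d : ℕ)
    (B : Fin κ → Finset ι) (hdisj : ∀ k l, k ≠ l → Disjoint (B k) (B l))
    (hcard : ∀ l, (B l).card = d) (hli : ∀ l, LinearIndepOn ℝ g (B l : Set ι)) :
    κ ^ d ≤ (sums g (Finset.univ.biUnion B)).card := by
  classical
  refine (many_indep κ d g B hdisj hcard hli).trans (le_trans ?_ (ind_le_sums _ g))
  apply Finset.card_le_card
  intro S hS
  rw [Finset.mem_filter] at hS ⊢
  exact ⟨hS.1, hS.2.2⟩

end

end H139R2.GP
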