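import Pool.Agent.H139R2.GP.Basics
import Pool.Agent.H139R2.GP.Blocks

set_option autoImplicit false

open scoped Pointwise

namespace H139R2.GP
open Finset

/-- claim* applied to a resampled family -/
lemma claim_apply {n μ κ : ℕ} {L : AddSubgroup (Fin n → ℤ)} (hC : H460.ClaimStar n μ κ L)
    {ι : Type} (g : ι → (Fin n → ℤ)) (hg : ∀ i, g i ∈ L) (J : Finset ι) (hJ : J.card ≤ κ * n)
    (D : Finset (Fin n → ℤ)) (hD : ∀ s ∈ D, ∀ i, |s i| ≤ 2 ^ (n^2)) (z : Fin n → ℤ)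
    (x : (Fin n → ℤ) → J → ℤ) (hx : ∀ s ∈ D, (∀ j, |x s j| ≤ 1) ∧ ∑ j, x s j • g j = s - z) :
    (D.card : ℝ) ≤ (2 : ℝ) ^ ((12 + (μ : ℝ) / 2) * n) := by
  classical
  set W : (J → ℤ) →+ (Fin n → ℤ) :=
    { toFun := fun y => ∑ j, y j • g j
      map_zero' := by simp
      map_add' := by intro y y'; simp [add_smul, Finset.sum_add_distrib] } with hW
  have hWx : ∀ s ∈ D, W (x s) = s - z := fun s hs => (hx s hs).2
  have hinj : Set.InjOn x D := by
    intro s hs s' hs' h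
    have h1 := hWx s hs
    have h2 := hWx s' hs'
    rw [h, h2] at h1
    exact (sub_left_injective h1).symm
  have hcard : (D.image x).card = D.card := Finset.card_image_of_injOn hinj
  rw [← hcard]
  apply hC J (by simpa using hJ) W
  · intro y
    simp only [hW, AddMonoidHom.coe_mk, ZeroHom.coe_mk]
    exact L.sum_mem fun j _ => L.zsmul_mem (hg j) _
  · intro y hy j
    obtain ⟨s, hs, rfl⟩ := Finset.mem_image.1 hy
    exact ((hx s hs).1 j).trans (by norm_num)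
  · intro y hy y' hy' h
    obtain ⟨s, hs, rfl⟩ := Finset.mem_image.1 (Finset.mem_coe.1 hy)
    obtain ⟨s', hs', rfl⟩ := Finset.mem_image.1 (Finset.mem_coe.1 hy')
    rw [hWx s hs, hWx s' hs'] at h
    rw [sub_left_injective h]
  · refine ⟨-z, ?_⟩
    intro y hy i
    obtain ⟨s, hs, rfl⟩ := Finset.mem_image.1 hy
    rw [hWx s hs]
    have : (s - z) i - (-z) i = s i := by simp
    rw [this]
    exact hD s hs i

lemma emb_image_card {n : ℕ} {ι : Type} (g : ι → (Fin n → ℤ)) (J : Finset ι) :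
    (sums (fun i => H460.emb (Fin n) (g i)) J).card ≤ (sums g J).card := by
  classical
  have h : sums (fun i => H460.emb (Fin n) (g i)) J = (sums g J).image (H460.emb (Fin n)) := by
    ext y
    rw [mem_sums, Finset.mem_image]
    constructor
    · rintro ⟨S, hS, rfl⟩
      exact ⟨∑ i ∈ S, g i, (mem_sums _ _ _).2 ⟨S, hS, rfl⟩, map_sum _ _ _⟩
    · rintro ⟨x, hx, rfl⟩
      obtain ⟨S, hS, rfl⟩ := (mem_sums _ _ _).1 hx
      exact ⟨S, hS, (map_sum _ _ _).symm⟩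
  rw [h]
  exact Finset.card_image_le

/-- combinatorial core: the size of `A'` versus the size of the progression -/
theorem core {n μ m : ℕ} {L : AddSubgroup (Fin n → ℤ)}
    (hC : H460.ClaimStar n μ (2 ^ m) L)
    (hpts : ∀ (V : Submodule ℝ (EuclideanSpace ℝ (Fin n))) (d : ℕ), Module.finrank ℝ V ≤ d →
      ∀ S : Finset (Fin n → ℤ), (∀ x ∈ S, ∀ y ∈ S, x - y ∈ L ∧ H460.emb (Fin n) (x - y) ∈ V) →
      (∃ z : Fin n → ℤ, ∀ x ∈ S, ∀ i, |x i - z i| ≤ 2 ^ (n ^ 2)) →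
      (S.card : ℝ) ≤ 2 ^ (6 * n + 1 + (μ + 4) * d))
    {ι : Type} [Fintype ι] (g : ι → (Fin n → ℤ)) (hg : ∀ i, g i ∈ L) (a : Fin n → ℤ)
    (A' : Finset (Fin n → ℤ)) (hAL : ∀ s ∈ A', s ∈ L) (hAb : ∀ s ∈ A', ∀ i, |s i| ≤ 2 ^ (n^2))
    (hA' : ∀ s ∈ A', ∃ S : Finset ι, s = a + ∑ i ∈ S, g i) :
    ((2:ℝ) ^ (m * (n/4)) * A'.card ≤ (sums g Finset.univ).card * (2 : ℝ) ^ ((12 + (μ : ℝ) / 2) * n)) ∨
    ((A'.card : ℝ)^3 ≤ ((sums g Finset.univ).card : ℝ)^2 *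
      ((2 : ℝ) ^ ((12 + (μ : ℝ) / 2) * n) * 2 ^ (6 * n + 1 + (μ + 4) * (n/4)))) := by
  classical
  rcases blocks (fun i => H460.emb (Fin n) (g i)) (n/4) (2^m) with ⟨B, hB1, hB2, hB3⟩ | ⟨J, hJ1, hJ2⟩
  · left
    have h1 := blocks_sums (fun i => H460.emb (Fin n) (g i)) (2^m) (n/4) B hB1 hB2 hB3
    have h2 := h1.trans (emb_image_card g (Finset.univ.biUnion B))
    obtain ⟨z, D, x, hDA, hcard, hx⟩ := resample g a (Finset.univ.biUnion B) A' hA'
    have hJcard : (Finset.univ.biUnion B).card ≤ 2^m * n := by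
      calc (Finset.univ.biUnion B).card ≤ ∑ l, (B l).card := Finset.card_biUnion_le
        _ = 2^m * (n/4) := by simp [hB2]
        _ ≤ 2^m * n := by gcongr; omega
    have h3 := claim_apply hC g hg _ hJcard D (fun s hs => hAb s (hDA hs)) z x hx
    have h4 : ((A'.card : ℝ)) * ((sums g (Finset.univ.biUnion B)).card : ℝ)
        ≤ ((sums g Finset.univ).card : ℝ) * D.card := by exact_mod_cast hcard
    have h5 : ((2:ℝ) ^ (m * (n/4))) ≤ ((sums g (Finset.univ.biUnion B)).card : ℝ) := by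
      rw [pow_mul]; exact_mod_cast h2
    calc (2:ℝ) ^ (m * (n/4)) * A'.card = A'.card * (2:ℝ) ^ (m * (n/4)) := mul_comm _ _
      _ ≤ A'.card * ((sums g (Finset.univ.biUnion B)).card : ℝ) := by gcongr
      _ ≤ ((sums g Finset.univ).card : ℝ) * D.card := h4
      _ ≤ _ := by gcongr
  · right
    have hrank := finrank_le (fun i => H460.emb (Fin n) (g i)) (n/4) J hJ2
    obtain ⟨z1, D1, x1, hDA1, hcard1, hx1⟩ := resample g a J A' hA'
    obtain ⟨z2, D2, x2, hDA2, hcard2, hx2⟩ := resample g a Jᶜ A' hA'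
    have hJcard : J.card ≤ 2^m * n := hJ1.trans (by gcongr; omega)
    have h3 := claim_apply hC g hg _ hJcard D1 (fun s hs => hAb s (hDA1 hs)) z1 x1 hx1
    have h4 : (D2.card : ℝ) ≤ 2 ^ (6 * n + 1 + (μ + 4) * (n/4)) := by
      apply hpts _ (n/4) hrank D2
      · intro s hs s' hs'
        refine ⟨L.sub_mem (hAL s (hDA2 hs)) (hAL s' (hDA2 hs')), ?_⟩
        have e1 : s - s' = ∑ j, (x2 s j - x2 s' j) • g j := by
          simp only [sub_smul, Finset.sum_sub_distrib]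
          rw [(hx2 s hs).2, (hx2 s' hs').2]; abel
        rw [e1, map_sum]
        apply Submodule.sum_mem
        intro j _
        rw [map_zsmul]
        apply Submodule.smul_of_tower_mem
        apply Submodule.subset_span
        exact ⟨j, j.2, rfl⟩
      · exact ⟨0, fun s hs i => by simpa using hAb s (hDA2 hs) i⟩
    have hc1 : ((A'.card : ℝ)) * ((sums g J).card : ℝ) ≤ ((sums g Finset.univ).card : ℝ) * D1.card := by
      exact_mod_cast hcard1
    have hc2 : ((A'.card : ℝ)) * ((sums g Jᶜ).card : ℝ) ≤ ((sums g Finset.univ).card : ℝ) * D2.card := by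
      exact_mod_cast hcard2
    have hprod : (A'.card : ℝ) ≤ ((sums g J).card : ℝ) * ((sums g Jᶜ).card : ℝ) := by
      have h6 : A' ⊆ ((sums g J) ×ˢ (sums g Jᶜ)).image (fun p => a + (p.1 + p.2)) := by
        intro s hs
        obtain ⟨S, hS⟩ := hA' s hs
        rw [Finset.mem_image]
        refine ⟨(∑ i ∈ S ∩ J, g i, ∑ i ∈ S \ J, g i), ?_, ?_⟩
        · rw [Finset.mem_product]
          refine ⟨(mem_sums _ _ _).2 ⟨S ∩ J, Finset.inter_subset_right, rfl⟩,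
            (mem_sums _ _ _).2 ⟨S \ J, ?_, rfl⟩⟩
          intro i hi
          rw [Finset.mem_compl]; exact (Finset.mem_sdiff.1 hi).2
        · rw [hS]
          congr 1
          simp only
          rw [Finset.sum_inter_add_sum_sdiff]
      have h7 := (Finset.card_le_card h6).trans Finset.card_image_le
      rw [Finset.card_product] at h7
      exact_mod_cast h7
    have hA0 : (0:ℝ) ≤ A'.card := by positivity
    have hs0 : (0:ℝ) ≤ (sums g Finset.univ).card := by positivity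
    calc (A'.card : ℝ)^3 = A'.card * A'.card * A'.card := by ring
      _ ≤ A'.card * A'.card * (((sums g J).card : ℝ) * ((sums g Jᶜ).card : ℝ)) := by gcongr
      _ = (A'.card * ((sums g J).card : ℝ)) * (A'.card * ((sums g Jᶜ).card : ℝ)) := by ring
      _ ≤ (((sums g Finset.univ).card : ℝ) * D1.card) * (((sums g Finset.univ).card : ℝ) * D2.card) := by
          gcongr
      _ = ((sums g Finset.univ).card : ℝ)^2 * (D1.card * D2.card) := by ring
      _ ≤ _ := by gcongr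

/-- the final numerical contradiction -/
lemma num_contra {n μ m C1 : ℕ} (hn : 8 ≤ n) (hμ : μ = 20 * C1 + 100) (hm : m = 8 * (2 * C1 + 13 + μ))
    (a p b : ℝ) (hb : (2:ℝ) ^ (μ * n) / 2 ≤ b) (hp0 : 0 ≤ p) (hp : p ≤ (2:ℝ) ^ (C1 * n) * b)
    (ha : ((2:ℝ) ^ (C1 * n))⁻¹ * b ≤ a)
    (h : ((2:ℝ) ^ (m * (n/4)) * a ≤ p * (2 : ℝ) ^ ((12 + (μ : ℝ) / 2) * n)) ∨
    (a^3 ≤ p^2 * ((2 : ℝ) ^ ((12 + (μ : ℝ) / 2) * n) * 2 ^ (6 * n + 1 + (μ + 4) * (n/4))))) : False := by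
  have hb0 : 0 < b := lt_of_lt_of_le (by positivity) hb
  set X := (2:ℝ) ^ (C1 * n) with hX
  have hX0 : 0 < X := by positivity
  have ha0 : 0 < a := lt_of_lt_of_le (by positivity) ha
  have hba : b ≤ X * a := by
    rwa [inv_mul_le_iff₀ hX0] at ha
  have hlogX : Real.log X = (C1 * n) * Real.log 2 := by rw [hX, Real.log_pow]; push_cast; ring
  have hl2 : 0 < Real.log 2 := Real.log_pos (by norm_num)
  have hnr : (8:ℝ) ≤ n := by exact_mod_cast hn
  have hn4 : (n:ℝ)/4 - 3/4 ≤ ((n/4 : ℕ) : ℝ) := by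
    have : n ≤ 4 * (n/4) + 3 := by omega
    have : (n:ℝ) ≤ 4 * ((n/4 : ℕ) : ℝ) + 3 := by exact_mod_cast this
    linarith
  have hn4' : ((n/4 : ℕ) : ℝ) ≤ (n:ℝ)/4 := by
    have : 4 * (n/4) ≤ n := by omega
    have : (4:ℝ) * ((n/4 : ℕ) : ℝ) ≤ n := by exact_mod_cast this
    linarith
  rcases h with h | h
  · have h1 : (2:ℝ) ^ (m * (n/4)) ≤ X^2 * (2 : ℝ) ^ ((12 + (μ : ℝ) / 2) * n) := by
      have h2 : (2:ℝ) ^ (m * (n/4)) * a ≤ (X^2 * (2 : ℝ) ^ ((12 + (μ : ℝ) / 2) * n)) * a := by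
        calc (2:ℝ) ^ (m * (n/4)) * a ≤ p * (2 : ℝ) ^ ((12 + (μ : ℝ) / 2) * n) := h
          _ ≤ (X * (X * a)) * (2 : ℝ) ^ ((12 + (μ : ℝ) / 2) * n) := by
              gcongr
              exact hp.trans (by gcongr)
          _ = (X^2 * (2 : ℝ) ^ ((12 + (μ : ℝ) / 2) * n)) * a := by ring
      exact le_of_mul_le_mul_right h2 ha0
    have h3 := Real.log_le_log (by positivity) h1
    rw [Real.log_pow, Real.log_mul (by positivity) (by positivity), Real.log_pow, hlogX,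
      Real.log_rpow (by norm_num)] at h3
    push_cast at h3
    have h4 : (m:ℝ) * ((n/4 : ℕ) : ℝ) ≤ 2 * (C1 * n) + (12 + (μ:ℝ)/2) * n := by
      have : ((m:ℝ) * ((n/4 : ℕ) : ℝ)) * Real.log 2 ≤ (2 * (C1 * n) + (12 + (μ:ℝ)/2) * n) * Real.log 2 := by
        linarith
      exact le_of_mul_le_mul_right this hl2
    have h5 : (m:ℝ) = 8 * (2 * C1 + 13 + μ) := by rw [hm]; push_cast; ring
    have hC0 : (0:ℝ) ≤ C1 := by positivity
    have hμ0 : (0:ℝ) ≤ μ := by positivity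
    have h6 : (n:ℝ)/8 ≤ ((n/4 : ℕ) : ℝ) := by linarith
    have h7 : (m:ℝ) * (n/8) ≤ (m:ℝ) * ((n/4 : ℕ) : ℝ) := by gcongr
    rw [h5] at h7 h4
    nlinarith
  · have h1 : b ≤ X^5 * ((2 : ℝ) ^ ((12 + (μ : ℝ) / 2) * n) * 2 ^ (6 * n + 1 + (μ + 4) * (n/4))) := by
      set Y := (2 : ℝ) ^ ((12 + (μ : ℝ) / 2) * n) * 2 ^ (6 * n + 1 + (μ + 4) * (n/4)) with hY
      have hY0 : 0 < Y := by positivity
      have h2 : b^3 ≤ X^5 * Y * b^2 := by
        calc b^3 ≤ (X * a)^3 := by gcongr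
          _ = X^3 * a^3 := by ring
          _ ≤ X^3 * (p^2 * Y) := by gcongr
          _ ≤ X^3 * ((X * b)^2 * Y) := by gcongr
          _ = X^5 * Y * b^2 := by ring
      have h3 : b * b^2 ≤ (X^5 * Y) * b^2 := by linarith [h2, (by ring : b^3 = b * b^2)]
      exact le_of_mul_le_mul_right h3 (by positivity)
    have h2 : (2:ℝ) ^ (μ * n) / 2 ≤ X^5 * ((2 : ℝ) ^ ((12 + (μ : ℝ) / 2) * n) * 2 ^ (6 * n + 1 + (μ + 4) * (n/4))) :=
      hb.trans h1
    have h3 := Real.log_le_log (by positivity) h2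
    rw [Real.log_div (by positivity) (by norm_num), Real.log_pow, Real.log_mul (by positivity) (by positivity),
      Real.log_mul (by positivity) (by positivity), Real.log_pow, hlogX,
      Real.log_rpow (by norm_num), Real.log_pow] at h3
    push_cast at h3
    have h4 : (μ:ℝ) * n - 1 ≤ 5 * (C1 * n) + (12 + (μ:ℝ)/2) * n + (6 * n + 1 + (μ+4) * ((n/4 : ℕ) : ℝ)) := by
      have : ((μ:ℝ) * n - 1) * Real.log 2 ≤
          (5 * (C1 * n) + (12 + (μ:ℝ)/2) * n + (6 * n + 1 + (μ+4) * ((n/4 : ℕ) : ℝ))) * Real.log 2 := by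
        linarith
      exact le_of_mul_le_mul_right this hl2
    have hμ0 : (0:ℝ) ≤ μ := by positivity
    have h5 : ((μ:ℝ)+4) * ((n/4 : ℕ) : ℝ) ≤ (μ+4) * (n/4) := by gcongr
    have h6 : (μ:ℝ) = 20 * C1 + 100 := by rw [hμ]; push_cast; ring
    rw [h6] at h4 h5
    nlinarith

/-- **GAP part**: from good lattices, claim* and the subspace bound to the negation. -/
theorem gap_final
    (hgood : ∀ μ : ℕ, ∃ n₀ : ℕ, ∀ n : ℕ, n₀ ≤ n → ∃ L : AddSubgroup (Fin n → ℤ), H460.Good n μ L)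
    (hclaim : ∀ μ κ : ℕ, ∃ n₀ : ℕ, ∀ n : ℕ, n₀ ≤ n →
      ∀ L : AddSubgroup (Fin n → ℤ), H460.Good n μ L → H460.ClaimStar n μ κ L)
    (hpts : ∀ (n μ : ℕ), μ + 4 ≤ n ^ 2 → ∀ L : AddSubgroup (Fin n → ℤ), H460.Good n μ L →
      ∀ (V : Submodule ℝ (EuclideanSpace ℝ (Fin n))) (d : ℕ), Module.finrank ℝ V ≤ d →
      ∀ S : Finset (Fin n → ℤ), (∀ x ∈ S, ∀ y ∈ S, x - y ∈ L ∧ H460.emb (Fin n) (x - y) ∈ V) →
      (∃ z : Fin n → ℤ, ∀ x ∈ S, ∀ i, |x i - z i| ≤ 2 ^ (n ^ 2)) →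
      (S.card : ℝ) ≤ 2 ^ (6 * n + 1 + (μ + 4) * d)) :
    ¬ (∃ C : ℝ, 0 < C ∧ ∃ c : ℝ, 0 < c ∧
  ∀ (G : Type) [AddCommGroup G],
    (∀ (n : ℕ) (x : G), n ≠ 0 → n • x = 0 → x = 0) →
    ∀ (A : Set G) (K : ℝ), A.Finite → A.Nonempty →
      ((A + A).ncard : ℝ) ≤ K * (A.ncard : ℝ) →
      ∃ (d : ℕ) (a : G) (v : Fin d → G) (N : Fin d → ℕ) (P : Set G),
        P = {x : G | ∃ k : Fin d → ℕ, (∀ i, k i < N i) ∧ x = a + ∑ i, k i • v i} ∧
        (d : ℝ) ≤ C * K ^ c ∧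
        (P.ncard : ℝ) ≤ C * K ^ c * (A.ncard : ℝ) ∧
        C⁻¹ * K ^ (-c) * (A.ncard : ℝ) ≤ ((A ∩ P).ncard : ℝ)) := by
  classical
  rintro ⟨C, hC, c, hc, hmain⟩
  -- constants
  obtain ⟨C2, hC2⟩ : ∃ C2 : ℕ, C ≤ 2 ^ C2 := pow_unbounded_of_one_lt C (by norm_num) |>.imp fun _ h => h.le
  obtain ⟨c3, hc3⟩ : ∃ c3 : ℕ, 3 * c ≤ c3 := exists_nat_ge (3 * c)
  obtain ⟨C1, hC1⟩ : ∃ C1, C1 = C2 + c3 := ⟨_, rfl⟩
  obtain ⟨μ, hμ⟩ : ∃ μ, μ = 20 * C1 + 100 := ⟨_, rfl⟩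
  obtain ⟨m, hm⟩ : ∃ m, m = 8 * (2 * C1 + 13 + μ) := ⟨_, rfl⟩
  obtain ⟨n1, hn1⟩ := hgood μ
  obtain ⟨n2, hn2⟩ := hclaim μ (2 ^ m)
  obtain ⟨n, hn1', hn2', hn3⟩ : ∃ n, n1 ≤ n ∧ n2 ≤ n ∧ μ + 8 ≤ n :=
    ⟨max (max n1 n2) (μ + 8), (le_max_left _ _).trans (le_max_left _ _),
      (le_max_right _ _).trans (le_max_left _ _), le_max_right _ _⟩
  obtain ⟨L, hL⟩ := hn1 n hn1'
  have hCS := hn2 n hn2' L hL
  have hμn : μ + 4 ≤ n ^ 2 := by nlinarith
  have hP := hpts n μ hμn L hL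
  -- apply the conjecture
  have htf : ∀ (k : ℕ) (x : L), k ≠ 0 → k • x = 0 → x = 0 := by
    intro k x hk hx
    have h1 : k • (x : Fin n → ℤ) = 0 := by
      have := congrArg Subtype.val hx
      simpa using this
    apply Subtype.ext
    funext i
    have h2 := congrFun h1 i
    simp only [Pi.smul_apply, Pi.zero_apply, nsmul_eq_mul, mul_eq_zero] at h2
    rcases h2 with h2 | h2
    · exact absurd (by exact_mod_cast h2) hk
    · exact h2
  have hdbl : ((AA L + AA L).ncard : ℝ) ≤ (5:ℝ) ^ n * ((AA L).ncard : ℝ) := by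
    exact_mod_cast doubling L
  obtain ⟨d, a, v, N, P, hPeq, -, hPcard, hAP⟩ := hmain L htf (AA L) ((5:ℝ)^n) (AA_finite L) (AA_nonempty L) hdbl
  -- bound of constants
  have hK : C * ((5:ℝ)^n) ^ c ≤ (2:ℝ) ^ (C1 * n) := by
    have h1 : ((5:ℝ)^n) ^ c ≤ (2:ℝ) ^ (c3 * n) := by
      calc ((5:ℝ)^n) ^ c ≤ ((8:ℝ)^n) ^ c := by
            apply Real.rpow_le_rpow (by positivity) _ hc.le
            gcongr; norm_num
        _ = (2:ℝ) ^ ((3 * c) * n) := by
            rw [show (8:ℝ) = (2:ℝ)^(3:ℝ) by norm_num, ← Real.rpow_natCast, ← Real.rpow_mul (by norm_num),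
              ← Real.rpow_mul (by norm_num)]
            congr 1; ring
        _ ≤ (2:ℝ) ^ (((c3 * n : ℕ) : ℝ)) := by
            apply Real.rpow_le_rpow_of_exponent_le (by norm_num)
            push_cast
            gcongr
        _ = (2:ℝ) ^ (c3 * n) := Real.rpow_natCast _ _
    calc C * ((5:ℝ)^n) ^ c ≤ (2:ℝ)^C2 * (2:ℝ) ^ (c3 * n) := by gcongr
      _ ≤ (2:ℝ)^(C2 * n) * (2:ℝ) ^ (c3 * n) := by
          gcongr
          · norm_num
          · nlinarith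
      _ = (2:ℝ) ^ (C1 * n) := by rw [← pow_add, hC1]; ring_nf
  have hcardA : (2:ℝ) ^ (μ * n) / 2 ≤ ((AA L).ncard : ℝ) := by rw [AA_ncard]; exact hL.card
  have hApos : (0:ℝ) < (AA L).ncard := lt_of_lt_of_le (by positivity) hcardA
  have hKc0 : 0 < C * ((5:ℝ)^n) ^ c := by positivity
  have hP1 : (P.ncard : ℝ) ≤ (2:ℝ) ^ (C1 * n) * ((AA L).ncard : ℝ) := hPcard.trans (by gcongr)
  have hA1 : ((2:ℝ) ^ (C1 * n))⁻¹ * ((AA L).ncard : ℝ) ≤ ((AA L ∩ P).ncard : ℝ) := by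
    refine le_trans ?_ hAP
    gcongr
    rw [Real.rpow_neg (by positivity), ← mul_inv]
    exact inv_anti₀ hKc0 hK
  -- the progression is nonempty
  have hfinAP : (AA L ∩ P).Finite := (AA_finite L).inter_of_left _
  have hne : (AA L ∩ P).Nonempty := by
    rw [Set.nonempty_iff_ne_empty]
    intro h
    rw [h] at hA1
    simp only [Set.ncard_empty, Nat.cast_zero] at hA1
    have : 0 < ((2:ℝ) ^ (C1 * n))⁻¹ * ((AA L).ncard : ℝ) := by positivity
    linarith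
  have hN : ∀ i, 0 < N i := by
    obtain ⟨x, hx1, hx2⟩ := hne
    rw [hPeq] at hx2
    obtain ⟨k, hk, _⟩ := hx2
    intro i; have := hk i; omega
  -- unit generators
  set g : Idx N → (Fin n → ℤ) := fun p => (v p.1 : Fin n → ℤ) with hg
  have hgL : ∀ p, g p ∈ L := fun p => (v p.1).2
  have hrep : ∀ x : L, x ∈ P ↔ ∃ S : Finset (Idx N), (x : Fin n → ℤ) = (a : Fin n → ℤ) + ∑ p ∈ S, g p := by
    intro x
    rw [hPeq]
    have h1 := prog_eq a v N hN x
    constructor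
    · intro hx
      obtain ⟨S, hS⟩ := h1.1 hx
      refine ⟨S, ?_⟩
      rw [hS]
      simp [hg]
    · rintro ⟨S, hS⟩
      apply h1.2
      refine ⟨S, ?_⟩
      apply Subtype.ext
      rw [hS]
      simp [hg]
  have hPimg : (Subtype.val : L → (Fin n → ℤ)) '' P = (((sums g Finset.univ).image (fun y => (a : Fin n → ℤ) + y) : Finset (Fin n → ℤ)) : Set (Fin n → ℤ)) := by
    ext x
    rw [Finset.mem_coe, Finset.mem_image]
    constructor
    · rintro ⟨y, hy, rfl⟩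
      obtain ⟨S, hS⟩ := (hrep y).1 hy
      exact ⟨∑ p ∈ S, g p, (mem_sums _ _ _).2 ⟨S, Finset.subset_univ _, rfl⟩, hS.symm⟩
    · rintro ⟨y, hy, rfl⟩
      obtain ⟨S, _, rfl⟩ := (mem_sums _ _ _).1 hy
      have hmem : (a : Fin n → ℤ) + ∑ p ∈ S, g p ∈ L := L.add_mem a.2 (L.sum_mem fun p _ => hgL p)
      exact ⟨⟨_, hmem⟩, (hrep ⟨_, hmem⟩).2 ⟨S, rfl⟩, rfl⟩
  have hPc : (P.ncard : ℝ) = (sums g Finset.univ).card := by
    rw [← Set.ncard_image_of_injective P Subtype.val_injective, hPimg, Set.ncard_coe_finset,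
      Finset.card_image_of_injective _ (add_right_injective _)]
  set A' : Finset (Fin n → ℤ) := hfinAP.toFinset.image Subtype.val with hA'
  have hA'c : ((A'.card : ℕ) : ℝ) = ((AA L ∩ P).ncard : ℝ) := by
    rw [hA', Finset.card_image_of_injective _ Subtype.val_injective, ← Set.ncard_eq_toFinset_card _ hfinAP]
  have hcore := core (μ := μ) (m := m) hCS hP g hgL (a : Fin n → ℤ) A'
    (by
      intro s hs
      obtain ⟨x, _, rfl⟩ := Finset.mem_image.1 hs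
      exact x.2)
    (by
      intro s hs
      obtain ⟨x, hx, rfl⟩ := Finset.mem_image.1 hs
      rw [Set.Finite.mem_toFinset] at hx
      exact hx.1)
    (by
      intro s hs
      obtain ⟨x, hx, rfl⟩ := Finset.mem_image.1 hs
      rw [Set.Finite.mem_toFinset] at hx
      exact (hrep x).1 hx.2)
  rw [hA'c, ← hPc] at hcore
  exact num_contra (by omega) hμ hm _ _ _ hcardA (by positivity) hP1 hA1 hcore

end H139R2.GP
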