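import Mathlib

set_option autoImplicit false

namespace H139R2.GP
open Finset

/-- all subset sums of the generators in `J` -/
noncomputable def sums {ι M : Type*} [AddCommGroup M] (g : ι → M) (J : Finset ι) : Finset M :=
  open Classical in J.powerset.image (fun S => ∑ i ∈ S, g i)

lemma mem_sums {ι M : Type*} [AddCommGroup M] (g : ι → M) (J : Finset ι) (x : M) :
    x ∈ sums g J ↔ ∃ S ⊆ J, ∑ i ∈ S, g i = x := by
  classical
  unfold sums
  simp [Finset.mem_image]

/-- the resampling inequality -/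
theorem resample {ι M : Type*} [Fintype ι] [AddCommGroup M] (g : ι → M) (a : M)
    (J : Finset ι) (A' : Finset M) (hA' : ∀ s ∈ A', ∃ S : Finset ι, s = a + ∑ i ∈ S, g i) :
    ∃ (z : M) (D : Finset M) (x : M → J → ℤ), D ⊆ A' ∧
      A'.card * (sums g J).card ≤ (sums g Finset.univ).card * D.card ∧
      ∀ s ∈ D, (∀ j, |x s j| ≤ 1) ∧ ∑ j, x s j • g j = s - z := by
  classical
  -- choose representations
  have h1 : ∀ s : M, ∃ S : Finset ι, s ∈ A' → s = a + ∑ i ∈ S, g i := by
    intro s
    by_cases hs : s ∈ A'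
    · obtain ⟨S, hS⟩ := hA' s hs; exact ⟨S, fun _ => hS⟩
    · exact ⟨∅, fun h => absurd h hs⟩
  choose S hS using h1
  have h2 : ∀ q : M, ∃ Q : Finset ι, q ∈ sums g J → Q ⊆ J ∧ ∑ i ∈ Q, g i = q := by
    intro q
    by_cases hq : q ∈ sums g J
    · obtain ⟨Q, hQ, hQ'⟩ := (mem_sums g J q).1 hq; exact ⟨Q, fun _ => ⟨hQ, hQ'⟩⟩
    · exact ⟨∅, fun h => absurd h hq⟩
  choose Q hQ using h2
  set Φ : M × M → M := fun p => p.1 - ∑ i ∈ S p.1 ∩ J, g i + p.2 with hΦ
  set dom : Finset (M × M) := A' ×ˢ sums g J with hdom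
  set tgt : Finset M := (sums g Finset.univ).image (fun y => a + y) with htgt
  have hmaps : ∀ p ∈ dom, Φ p ∈ tgt := by
    intro p hp
    obtain ⟨hp1, hp2⟩ := Finset.mem_product.1 hp
    obtain ⟨hQ1, hQ2⟩ := hQ p.2 hp2
    rw [htgt, Finset.mem_image]
    refine ⟨∑ i ∈ (S p.1 \ J) ∪ Q p.2, g i, ?_, ?_⟩
    · rw [mem_sums]; exact ⟨_, Finset.subset_univ _, rfl⟩
    · have hd : Disjoint (S p.1 \ J) (Q p.2) :=
        Finset.disjoint_of_subset_right hQ1 Finset.sdiff_disjoint
      rw [Finset.sum_union hd, hQ2]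
      simp only [hΦ]
      have h3 := hS p.1 hp1
      have h4 : ∑ i ∈ S p.1, g i = ∑ i ∈ S p.1 \ J, g i + ∑ i ∈ S p.1 ∩ J, g i := by
        rw [← Finset.sum_sdiff (Finset.inter_subset_left (s₁ := S p.1) (s₂ := J)), Finset.sdiff_inter_self_left]
      have h5 : p.1 = a + (∑ i ∈ S p.1 \ J, g i + ∑ i ∈ S p.1 ∩ J, g i) := h3.trans (by rw [h4])
      calc a + (∑ i ∈ S p.1 \ J, g i + p.2)
          = (a + (∑ i ∈ S p.1 \ J, g i + ∑ i ∈ S p.1 ∩ J, g i)) - ∑ i ∈ S p.1 ∩ J, g i + p.2 := by abel
        _ = p.1 - ∑ i ∈ S p.1 ∩ J, g i + p.2 := by rw [← h5]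
  have htc : tgt.card = (sums g Finset.univ).card :=
    Finset.card_image_of_injective _ (add_right_injective a)
  rcases Finset.eq_empty_or_nonempty A' with hAe | hAne
  · refine ⟨0, ∅, fun _ _ => 0, Finset.empty_subset _, ?_, ?_⟩
    · simp [hAe]
    · simp
  have hsne : (sums g J).Nonempty := ⟨0, (mem_sums g J 0).2 ⟨∅, Finset.empty_subset _, by simp⟩⟩
  have htne : tgt.Nonempty := by
    obtain ⟨s, hs⟩ := hAne
    obtain ⟨q, hq⟩ := hsne
    exact ⟨_, hmaps (s, q) (Finset.mem_product.2 ⟨hs, hq⟩)⟩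
  obtain ⟨z, hz, hcard⟩ := Finset.exists_max_image tgt (fun z => (dom.filter fun p => Φ p = z).card) htne
  have hpig : dom.card ≤ tgt.card * (dom.filter fun p => Φ p = z).card := by
    rw [Finset.card_eq_sum_card_fiberwise (f := Φ) (t := tgt) (fun p hp => hmaps p hp)]
    calc ∑ b ∈ tgt, (dom.filter fun p => Φ p = b).card ≤ ∑ b ∈ tgt, (dom.filter fun p => Φ p = z).card :=
          Finset.sum_le_sum fun b hb => hcard b hb
      _ = tgt.card * (dom.filter fun p => Φ p = z).card := by rw [Finset.sum_const, smul_eq_mul]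
  set fib := dom.filter fun p => Φ p = z with hfib
  have hinj : Set.InjOn (fun p : M × M => p.1) fib := by
    intro p hp p' hp' h
    obtain ⟨_, hp2⟩ := Finset.mem_filter.1 (Finset.mem_coe.1 hp)
    obtain ⟨_, hp2'⟩ := Finset.mem_filter.1 (Finset.mem_coe.1 hp')
    simp only [hΦ] at hp2 hp2' h
    rw [h] at hp2
    have : p.2 = p'.2 := by
      have := hp2.trans hp2'.symm
      exact add_left_cancel this
    exact Prod.ext h this
  refine ⟨z, fib.image (fun p => p.1), fun s j => (if (j : ι) ∈ S s then 1 else 0) -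
      (if (j : ι) ∈ Q (z - s + ∑ i ∈ S s ∩ J, g i) then 1 else 0), ?_, ?_, ?_⟩
  · intro s hs
    obtain ⟨p, hp, rfl⟩ := Finset.mem_image.1 hs
    exact (Finset.mem_product.1 (Finset.mem_filter.1 hp).1).1
  · rw [Finset.card_image_of_injOn hinj, ← htc]
    calc A'.card * (sums g J).card = dom.card := by rw [hdom, Finset.card_product]
      _ ≤ _ := hpig
  · intro s hs
    obtain ⟨p, hp, rfl⟩ := Finset.mem_image.1 hs
    obtain ⟨hp1, hp2⟩ := Finset.mem_filter.1 hp
    obtain ⟨hpA, hpq⟩ := Finset.mem_product.1 hp1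
    obtain ⟨hQ1, hQ2⟩ := hQ p.2 hpq
    simp only [hΦ] at hp2
    have hq : z - p.1 + ∑ i ∈ S p.1 ∩ J, g i = p.2 := by rw [← hp2]; abel
    constructor
    · intro j
      dsimp only
      split_ifs <;> simp
    · simp only [hq, sub_smul, ite_smul, one_smul, zero_smul, Finset.sum_sub_distrib]
      have e1 : ∑ j : J, (if (j : ι) ∈ S p.1 then g j else 0) = ∑ i ∈ S p.1 ∩ J, g i := by
        rw [Finset.sum_coe_sort J (fun i => if i ∈ S p.1 then g i else 0), ← Finset.sum_filter]
        apply Finset.sum_congr _ (fun _ _ => rfl)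
        ext i; simp [and_comm]
      have e2 : ∑ j : J, (if (j : ι) ∈ Q p.2 then g j else 0) = p.2 := by
        rw [Finset.sum_coe_sort J (fun i => if i ∈ Q p.2 then g i else 0), ← Finset.sum_filter]
        rw [← hQ2]
        apply Finset.sum_congr _ (fun _ _ => rfl)
        ext i
        rw [hQ2]
        simp only [Finset.mem_filter]
        exact ⟨fun h => h.2, fun h => ⟨hQ1 h, h⟩⟩
      rw [e1, e2, ← hq]; abel

/-- maximal blocks: either `κ` disjoint independent `d`-sets, or the rest has rank `< d`. -/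
theorem blocks {ι E : Type*} [Fintype ι] [DecidableEq ι] [AddCommGroup E] [Module ℝ E] (g : ι → E) (d κ : ℕ) :
    (∃ B : Fin κ → Finset ι, (∀ k l, k ≠ l → Disjoint (B k) (B l)) ∧ (∀ l, (B l).card = d) ∧
      ∀ l, LinearIndepOn ℝ g (B l : Set ι)) ∨
    (∃ J : Finset ι, J.card ≤ κ * d ∧ ∀ S : Finset ι, Disjoint S J → S.card = d →
      ¬ LinearIndepOn ℝ g (S : Set ι)) := by
  induction κ with
  | zero =>
    left
    exact ⟨fun l => l.elim0, fun k => k.elim0, fun k => k.elim0, fun k => k.elim0⟩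
  | succ κ ih =>
    rcases ih with ⟨B, hB1, hB2, hB3⟩ | ⟨J, hJ1, hJ2⟩
    · by_cases h : ∃ S : Finset ι, Disjoint S (Finset.univ.biUnion B) ∧ S.card = d ∧
          LinearIndepOn ℝ g (S : Set ι)
      · obtain ⟨S, hS1, hS2, hS3⟩ := h
        left
        refine ⟨Fin.cons S B, ?_, ?_, ?_⟩
        · intro k l hkl
          have hdis : ∀ m, Disjoint S (B m) := fun m =>
            Finset.disjoint_of_subset_right (Finset.subset_biUnion_of_mem B (Finset.mem_univ m)) hS1
          induction k using Fin.cases with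
          | zero =>
            induction l using Fin.cases with
            | zero => exact absurd rfl hkl
            | succ l => exact hdis l
          | succ k =>
            induction l using Fin.cases with
            | zero => exact (hdis k).symm
            | succ l => exact hB1 k l (fun h => hkl (by rw [h]))
        · intro l; refine Fin.cases ?_ ?_ l
          · exact hS2
          · exact hB2
        · intro l; refine Fin.cases ?_ ?_ l
          · exact hS3
          · exact hB3
      · right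
        push Not at h
        refine ⟨Finset.univ.biUnion B, ?_, fun S h1 h2 => h S h1 h2⟩
        calc (Finset.univ.biUnion B).card ≤ ∑ l, (B l).card := Finset.card_biUnion_le
          _ = κ * d := by simp [hB2]
          _ ≤ (κ+1) * d := by gcongr; omega
    · right
      exact ⟨J, hJ1.trans (by gcongr; omega), hJ2⟩

end H139R2.GP
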